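import Pool.Agent.W_bec814_h13.FieldC
import Pool.Agent.W_bec814_h13.AffFG
import Pool.Agent.W_bec814_h13.AffDer
import Pool.Agent.W_bec814_h13.AffDC
import Pool.Agent.W_bec814_h13.Core
import Pool.Agent.W_bec814_h13.WreathFP
import Pool.Agent.W_bec814_h13.WreathQI
import Pool.Agent.W_bec814_h13.WreathSol
import Pool.Agent.W_bec814_h13.Defs2

/-!
# A finitely generated soluble group with a finitely generated subgroup of infinite index and two
double cosets, and quasi-isometric wreath products that are finitely presented relative to it
-/

set_option autoImplicit false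

namespace Pool.Agent.Results.MP_bec814_al.TwoTransitive

open Pool.Agent.WBec814

/-- There are a finitely generated soluble group `Q` of derived length at most `4` and a finitely
generated, core-free subgroup `H` of infinite index with exactly two double cosets `H`, `H g H`
(equivalently: `Q` acts faithfully and 2-transitively on the infinite set `Q ⧸ H`, with finitely
generated point stabilisers). Consequently, with `PermWreath H F` the restricted permutational
wreath product `F ≀ Q` of a group `F` with `Q` acting on `Q ⧸ H`:

* for every finite group `F` it is finitely presented relative to `Q`: it is the quotient of the free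
  product `Q * F` by the normal closure of a finite set;
* for finite groups `F`, `F'` of the same order the groups `F ≀ Q` and `F' ≀ Q` have isomorphic Cayley
  graphs with respect to suitable finite generating sets (so they are quasi-isometric);
* for `F` cyclic of order `60` the group `F ≀ Q` is soluble, for `F = A₅` no subgroup of finite index
  of `F ≀ Q` is soluble. -/
theorem result : ∃ (Q : Type) (_ : Group Q) (H : Subgroup Q),
    Group.FG Q ∧ derivedSeries Q 4 = ⊥ ∧
    H.FG ∧ H.index = 0 ∧ H.normalCore = ⊥ ∧ TwoDoubleCosets H ∧
    (∀ (F : Type) [Group F] [Finite F], RelFinPres H F) ∧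
    (∀ (F F' : Type) [Group F] [Group F'] [Finite F] [Finite F'], Nat.card F = Nat.card F' →
      CayleyIso (PermWreath H F) (PermWreath H F')) ∧
    Group.IsSolvable (PermWreath H (Multiplicative (ZMod 60))) ∧
    NotVirtuallySoluble (PermWreath H (alternatingGroup (Fin 5))) := by
  obtain ⟨A, x, hA, hd, hx⟩ := exists_field_group
  have := infinite_K
  have hfg : Group.FG (affGroup A) := (Group.fg_iff_subgroup_fg _).2 (affGroup_fg A hA x hx)
  have hsol : Group.IsSolvable (affGroup A) := ⟨⟨4, affGroup_derived A hd⟩⟩
  obtain ⟨g, hg, hq⟩ := affStab_double A
  have hidx := affStab_index A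
  refine ⟨affGroup A, inferInstance, affStab A, hfg, affGroup_derived A hd, affStab_fg A hA x hx,
    hidx, affStab_core A, ⟨g, hg, hq⟩, fun F _ _ => ⟨canon_surjective _ _ _, ?_⟩,
    fun F F' _ _ _ _ hc => cayleyIso_wr _ _ _ hc _ hfg, isSolvable_wr _ _ _ hsol inferInstance,
    fun L hL => ?_⟩
  · exact canon_ker _ _ _ (affStab_fg A hA x hx) {g} fun q hq' =>
      ⟨g, Finset.mem_singleton_self g, hg, hq q hq'⟩
  · have : Infinite (affGroup A ⧸ affStab A) := by
      rw [Subgroup.index, Nat.card_eq_zero] at hidx
      rcases hidx with h | h
      · exact absurd h (by simp)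
      · exact h
    exact not_isSolvable_wr _ _ L hL

end Pool.Agent.Results.MP_bec814_al.TwoTransitive
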