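import Pool.Agent.W_bec814_h98.Main

/-!
# One quasi-isometry class of finitely presented groups with a metabelian group and groups of
unbounded virtual derived length
-/

set_option autoImplicit false

namespace Pool.Agent.Results.MP_bec814_al.UnboundedDerivedLength

open Pool.Agent.W_bec814_h98

/-- There is a finitely presented metabelian group `G` such that for every `n` there is a finitely
presented group `H` quasi-isometric to `G` none of whose subgroups of finite index is soluble of derived
length at most `n`. Here `G` is the semidirect product of the additive group of
`R = F₂[T, 1/T, 1/(1+T)]` with `ℤ²` acting through multiplication by `T` and `1 + T`, and `H` is the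
semidirect product of the group of unitriangular `m × m` matrices over `R` with `ℤ²`. -/
theorem result : ∃ (G : Type) (_ : Group G), FinPres G ∧ derivedSeries G 2 = ⊥ ∧
    ∀ n : ℕ, ∃ (H : Type) (_ : Group H), FinPres H ∧ QIso H G ∧
      ∀ K : Subgroup H, K.FiniteIndex → derivedSeries K n ≠ ⊥ :=
  main

end Pool.Agent.Results.MP_bec814_al.UnboundedDerivedLength
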